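import Pool.Agent.Helper691_Ssql.Assembly

/-!
# Stable square length is at most square length minus one

`ssql w ≤ sql* w - 1` for every element `w` of a free group. The definitions, and the description
of compact surfaces by flags (corners of bands), are in `Pool/Agent/Helper691_Ssql/Defs.lean`.
-/

namespace Pool.Agent.Results.MP_cbb57c_al.StableSquareLength

open Helper691

/-- Stable square length is at most `sql* - 1` in free groups. -/
theorem result (α : Type) (w : FreeGroup α) :
    ssql w ≤ (((sqlStar w : ℕ∞) : ENNReal) : EReal) - 1 := by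
  by_cases hw1 : w = 1
  · rw [ssql, if_pos hw1]
    have h1 : (0 : EReal) ≤ (((sqlStar w : ℕ∞) : ENNReal) : EReal) := EReal.coe_ennreal_nonneg _
    calc (-1 : EReal) = 0 - 1 := by simp
      _ ≤ _ := by exact EReal.sub_le_sub h1 le_rfl
  · -- a general bound for natural numbers
    have hnat : ∀ m : ℕ, ((((m : ℕ∞) : ENNReal) : EReal) - 1) = (((m : ℝ) - 1 : ℝ) : EReal) := by
      intro m
      rw [EReal.coe_sub, EReal.coe_one]
      congr 1
    have htop : ((((⊤ : ℕ∞) : ENNReal) : EReal) - 1) = ⊤ := by
      simp only [ENat.toENNReal_top, EReal.coe_ennreal_top]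
      exact EReal.top_sub_coe 1
    have hs : ssql w ≤ (((sql w : ℕ∞) : ENNReal) : EReal) - 1 := by
      by_cases hne : {n : ℕ∞ | ∃ a : List (FreeGroup α), (a.map (fun x => x ^ 2)).prod = w ∧
          (a.length : ℕ∞) = n}.Nonempty
      · obtain ⟨a, ha, hlen⟩ := csInf_mem hne
        rw [sql, ← hlen, hnat]
        exact ssql_le_squares w hw1 a ha
      · rw [Set.not_nonempty_iff_eq_empty] at hne
        rw [sql, hne, sInf_empty, htop]
        exact le_top
    have hc : ssql w ≤ (((2 * cl w : ℕ∞) : ENNReal) : EReal) - 1 := by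
      by_cases hne : {n : ℕ∞ | ∃ a : List (FreeGroup α × FreeGroup α),
          (a.map (fun p => p.1 * p.2 * p.1⁻¹ * p.2⁻¹)).prod = w ∧ (a.length : ℕ∞) = n}.Nonempty
      · obtain ⟨a, ha, hlen⟩ := csInf_mem hne
        rw [cl, ← hlen]
        have h2 : (2 * (a.length : ℕ∞)) = ((2 * a.length : ℕ) : ℕ∞) := by push_cast; rfl
        rw [h2, hnat]
        have := ssql_le_commutators w hw1 a ha
        push_cast
        exact this
      · rw [Set.not_nonempty_iff_eq_empty] at hne
        rw [cl, hne, sInf_empty]
        have h2 : (2 * (⊤ : ℕ∞)) = ⊤ := by simp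
        rw [h2, htop]
        exact le_top
    rw [sqlStar]
    rcases min_choice (sql w) (2 * cl w) with h | h
    · rw [h]
      exact hs
    · rw [h]
      exact hc

end Pool.Agent.Results.MP_cbb57c_al.StableSquareLength
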